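import Pool.Agent.MHP.StmtsD

set_option autoImplicit false

namespace Pool.Agent.MHP.H21

open Pool.Agent.HMT Pool.Agent.MHP

/-- graph of a boolean relation -/
def gb (f : Fin 6 → Fin 6 → Bool) : SimpleGraph (Fin 6) where
  Adj a b := a ≠ b ∧ (f a b = true ∨ f b a = true)
  symm := ⟨fun _ _ h => ⟨h.1.symm, h.2.symm⟩⟩
  loopless := ⟨fun _ h => h.1 rfl⟩

/-- the first tree -/
def ba (a b : Fin 6) : Bool :=
  (a == 0 && b == 1) || (a == 0 && b == 2) || (a == 2 && b == 3) || (a == 0 && b == 4) ||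
    (a == 4 && b == 5)

/-- the second tree -/
def bm (a b : Fin 6) : Bool :=
  (a == 0 && b == 1) || (a == 0 && b == 2) || (a == 0 && b == 3) || (a == 3 && b == 4) ||
    (a == 4 && b == 5)

/-- degrees -/
def cn (f : Fin 6 → Fin 6 → Bool) (v : Fin 6) : ℕ :=
  (Finset.univ.filter (fun b : Fin 6 => (decide (v ≠ b) && (f v b || f b v)) = true)).card

theorem card_nb (f : Fin 6 → Fin 6 → Bool) (v : Fin 6) :
    Nat.card ((gb f).neighborSet v) = cn f v := by
  unfold cn
  rw [← Nat.card_eq_finsetCard]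
  apply Nat.card_congr
  refine Equiv.subtypeEquivRight ?_
  intro b
  simp [SimpleGraph.mem_neighborSet, gb]

theorem cn_eq : ∀ v : Fin 6, cn bm (Equiv.swap 2 3 v) = cn ba v := by
  decide

theorem deg_root : cn ba 0 = cn bm 0 := by decide

theorem adj_iff (f : Fin 6 → Fin 6 → Bool) (v w : Fin 6) :
    (gb f).Adj v w ↔ (decide (v ≠ w) && (f v w || f w v)) = true := by
  simp [gb]

theorem ua (v : Fin 6) (h1 : (gb ba).Adj 0 v) (h2 : ∀ w, (gb ba).Adj v w → w = 0) : v = 1 := by
  rw [adj_iff] at h1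
  simp only [adj_iff] at h2
  revert v
  decide

theorem um1 : (gb bm).Adj 0 1 ∧ ∀ w, (gb bm).Adj 1 w → w = 0 := by
  simp only [adj_iff]
  decide

theorem um2 : (gb bm).Adj 0 2 ∧ ∀ w, (gb bm).Adj 2 w → w = 0 := by
  simp only [adj_iff]
  decide

theorem conn_ba : (gb ba).Connected := by
  rw [SimpleGraph.connected_iff_exists_forall_reachable]
  refine ⟨0, fun v => ?_⟩
  have a1 : (gb ba).Adj 0 1 := by rw [adj_iff]; decide
  have a2 : (gb ba).Adj 0 2 := by rw [adj_iff]; decide
  have a3 : (gb ba).Adj 2 3 := by rw [adj_iff]; decide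
  have a4 : (gb ba).Adj 0 4 := by rw [adj_iff]; decide
  have a5 : (gb ba).Adj 4 5 := by rw [adj_iff]; decide
  fin_cases v
  · exact SimpleGraph.Reachable.refl _
  · exact a1.reachable
  · exact a2.reachable
  · exact a2.reachable.trans a3.reachable
  · exact a4.reachable
  · exact a4.reachable.trans a5.reachable

theorem conn_bm : (gb bm).Connected := by
  rw [SimpleGraph.connected_iff_exists_forall_reachable]
  refine ⟨0, fun v => ?_⟩
  have a1 : (gb bm).Adj 0 1 := by rw [adj_iff]; decide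
  have a2 : (gb bm).Adj 0 2 := by rw [adj_iff]; decide
  have a3 : (gb bm).Adj 0 3 := by rw [adj_iff]; decide
  have a4 : (gb bm).Adj 3 4 := by rw [adj_iff]; decide
  have a5 : (gb bm).Adj 4 5 := by rw [adj_iff]; decide
  fin_cases v
  · exact SimpleGraph.Reachable.refl _
  · exact a1.reachable
  · exact a2.reachable
  · exact a3.reachable
  · exact a3.reachable.trans a4.reachable
  · exact a3.reachable.trans (a4.reachable.trans a5.reachable)

/-- degree of a vertex of `X` different from `x` -/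
theorem nb_inl {V W : Type} (X : SimpleGraph W) (x : W) (C : SimpleGraph V) (r : V) (w : W)
    (h : w ≠ x) :
    Nat.card ((glue X x C r).neighborSet (Sum.inl w)) = Nat.card (X.neighborSet w) := by
  symm
  refine Nat.card_congr ⟨fun a => ⟨Sum.inl a.1, a.2⟩, fun p => ⟨?_, ?_⟩, ?_, ?_⟩
  · exact match p with
      | ⟨.inl a, _⟩ => a
      | ⟨.inr _, hp⟩ => absurd hp.1 h
  · match p with
      | ⟨.inl a, hp⟩ => exact hp
      | ⟨.inr _, hp⟩ => exact absurd hp.1 h
  · intro a
    rfl
  · rintro ⟨a | a, hp⟩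
    · rfl
    · exact absurd hp.1 h

/-- degree of the common vertex -/
theorem nb_root {V W : Type} [Finite V] [Finite W] (X : SimpleGraph W) (x : W)
    (C : SimpleGraph V) (r : V) :
    Nat.card ((glue X x C r).neighborSet (Sum.inl x)) =
      Nat.card (X.neighborSet x) + Nat.card (C.neighborSet r) := by
  rw [← Nat.card_sum]
  symm
  refine Nat.card_congr ⟨?_, ?_, ?_, ?_⟩
  · rintro (a | a)
    · exact ⟨.inl a.1, a.2⟩
    · exact ⟨.inr ⟨a.1, fun h => C.ne_of_adj a.2 h.symm⟩, rfl, a.2⟩
  · rintro ⟨a | a, hp⟩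
    · exact .inl ⟨a, hp⟩
    · exact .inr ⟨a.1, hp.2⟩
  · rintro (a | a)
    · rfl
    · rfl
  · rintro ⟨a | a, hp⟩
    · rfl
    · rfl

/-- degree of a vertex of `C` different from the root -/
theorem nb_inr {V W : Type} (X : SimpleGraph W) (x : W) (C : SimpleGraph V) (r : V)
    (v : {v : V // v ≠ r}) :
    Nat.card ((glue X x C r).neighborSet (Sum.inr v)) = Nat.card (C.neighborSet v.1) := by
  classical
  symm
  refine Nat.card_congr (Equiv.ofBijective
    (fun a : C.neighborSet v.1 => (⟨emb r x a.1, ?_⟩ :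
      (glue X x C r).neighborSet (Sum.inr v))) ⟨?_, ?_⟩)
  · have h := (glue_adj_emb X x C r v.1 a.1).2 a.2
    rw [emb_of_ne r x v.1 v.2] at h
    exact h
  · intro a b hab
    apply Subtype.ext
    exact emb_injective r x (congrArg Subtype.val hab)
  · rintro ⟨p, hp⟩
    rcases p with a | a
    · refine ⟨⟨r, ?_⟩, ?_⟩
      · exact hp.2.symm
      · apply Subtype.ext
        change emb r x r = Sum.inl a
        rw [emb_root, hp.1]
    · refine ⟨⟨a.1, hp⟩, ?_⟩
      apply Subtype.ext
      exact emb_of_ne r x a.1 a.2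

/-- the bijection of the vertices other than the root -/
def sg : {v : Fin 6 // v ≠ 0} ≃ {v : Fin 6 // v ≠ 0} :=
  (Equiv.swap (2 : Fin 6) 3).subtypeEquiv (fun a => by
    revert a; decide)

theorem dn_eq (X : PG) (d : ℕ) : dn (glue X.G X.r (gb ba) 0) d = dn (glue X.G X.r (gb bm) 0) d := by
  unfold dn
  refine Nat.card_congr (Equiv.subtypeEquiv (Equiv.sumCongr (Equiv.refl _) sg) ?_)
  rintro (w | v)
  · by_cases h : w = X.r
    · subst h
      change _ ↔ Nat.card ((glue X.G X.r (gb bm) 0).neighborSet (Sum.inl X.r)) = d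
      rw [nb_root, nb_root, card_nb, card_nb, deg_root]
    · change _ ↔ Nat.card ((glue X.G X.r (gb bm) 0).neighborSet (Sum.inl w)) = d
      rw [nb_inl _ _ _ _ _ h, nb_inl _ _ _ _ _ h]
  · change _ ↔ Nat.card ((glue X.G X.r (gb bm) 0).neighborSet (Sum.inr (sg v))) = d
    rw [nb_inr, nb_inr, card_nb, card_nb]
    have h : (sg v).1 = Equiv.swap 2 3 v.1 := rfl
    rw [h, cn_eq]

theorem deg : PaiStmt → DegStmt := by
  intro pai P hP
  refine pai P ⟨Fin 6, gb ba, 0⟩ ⟨Fin 6, gb bm, 0⟩ conn_ba conn_bm ?_ ?_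
  · rintro ⟨e, he⟩
    have he' : e.symm 0 = 0 := by
      have h0 : e 0 = 0 := he
      exact (e.toEquiv.symm_apply_eq).2 h0.symm
    have key : ∀ u : Fin 6, ((gb bm).Adj 0 u ∧ ∀ w, (gb bm).Adj u w → w = 0) →
        e.symm u = 1 := by
      intro u hu
      apply ua
      · have h := e.symm.map_rel_iff.2 hu.1
        have h2 : (gb ba).Adj (e.symm 0) (e.symm u) := h
        rwa [he'] at h2
      · intro w hw
        have h : (gb bm).Adj (e (e.symm u)) (e w) := e.map_rel_iff.2 hw
        have h1 : (gb bm).Adj u (e w) := by simpa using h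
        have h2 := hu.2 _ h1
        have h3 : e w = e 0 := by
          rw [h2]
          exact he.symm
        exact e.injective h3
    have h1 := key 1 um1
    have h2 := key 2 um2
    have h3 : (1 : Fin 6) = 2 := e.symm.injective (h1.trans h2.symm)
    exact absurd h3 (by decide)
  · intro X
    exact hP _ _ _ _ (dn_eq X)

end Pool.Agent.MHP.H21
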