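import Pool.Agent.Helper21_MHP.PAI

set_option autoImplicit false

open scoped Classical

namespace Pool.Agent.MHP.H21

open Pool.Agent.HMT Pool.Agent.MHP

/-- Linearly dependent rows of pairwise non-isomorphic connected rooted graphs. -/
theorem lin (P : GProp) (g : ℕ) {n : ℕ} (A : Fin n → PG) (a : Fin n → ℤ)
    (hc : ∀ l, (A l).G.Connected) (hs : ∀ l, Spr g (A l).G)
    (hi : ∀ l l', PIso (A l) (A l') → l = l') (ha : ∃ l, a l ≠ 0)
    (hr : ∀ X : PG, Spr g X.G → (∀ v w, X.G.Adj X.r v → X.G.Adj X.r w → v = w) →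
      ∑ l, a l * mu P (glue X.G X.r (A l).G (A l).r) = 0) :
    RowDep P g := by
  obtain ⟨l0, h0, hmax⟩ : ∃ l0, a l0 ≠ 0 ∧ ∀ l, a l ≠ 0 →
      Nat.card (A l).G.edgeSet ≤ Nat.card (A l0).G.edgeSet := by
    obtain ⟨l1, h1⟩ := ha
    obtain ⟨l0, hl0, hm⟩ := Finset.exists_max_image (Finset.univ.filter (fun l => a l ≠ 0))
      (fun l => Nat.card (A l).G.edgeSet) ⟨l1, by simp [h1]⟩
    refine ⟨l0, by simpa using hl0, fun l hl => hm l (by simp [hl])⟩
  refine ⟨A l0, {l : Fin n // l ≠ l0 ∧ a l ≠ 0}, inferInstance, fun l => A l.1, a l0,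
    fun l => - a l.1, hc l0, h0, hs l0, fun l => ⟨hs l.1, ?_, ?_⟩, ?_⟩
  · intro h
    exact l.2.1 (hi _ _ (piso_trans (piso_symm (comp_iso (A l.1) (hc l.1))) h))
  · rw [piso_edges (comp_iso (A l.1) (hc l.1))]
    exact hmax l.1 l.2.2
  · intro X hX hX'
    have h := hr X hX hX'
    have h1 : ∑ l : {l : Fin n // l ≠ l0 ∧ a l ≠ 0},
        - a l.1 * mu P (glue X.G X.r (A l.1).G (A l.1).r) =
        ∑ l ∈ Finset.univ.filter (fun l => l ≠ l0 ∧ a l ≠ 0),
          - a l * mu P (glue X.G X.r (A l).G (A l).r) := by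
      rw [Finset.sum_subtype (p := fun l => l ≠ l0 ∧ a l ≠ 0)]
      intro l
      simp
    rw [h1]
    have h2 : ∑ l, a l * mu P (glue X.G X.r (A l).G (A l).r) =
        a l0 * mu P (glue X.G X.r (A l0).G (A l0).r) +
        ∑ l ∈ Finset.univ.filter (fun l => l ≠ l0 ∧ a l ≠ 0),
          a l * mu P (glue X.G X.r (A l).G (A l).r) := by
      rw [← Finset.add_sum_erase Finset.univ _ (Finset.mem_univ l0)]
      congr 1
      symm
      apply Finset.sum_subset
      · intro l hl
        simp only [Finset.mem_filter, Finset.mem_univ, true_and] at hl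
        exact Finset.mem_erase.2 ⟨hl.1, Finset.mem_univ _⟩
      · intro l hl hl'
        have hne := (Finset.mem_erase.1 hl).1
        by_cases hz : a l = 0
        · rw [hz, zero_mul]
        · exact absurd (by simp [hne, hz]) hl'
    rw [h2] at h
    have h3 : ∑ l ∈ Finset.univ.filter (fun l => l ≠ l0 ∧ a l ≠ 0),
        - a l * mu P (glue X.G X.r (A l).G (A l).r) =
        - ∑ l ∈ Finset.univ.filter (fun l => l ≠ l0 ∧ a l ≠ 0),
          a l * mu P (glue X.G X.r (A l).G (A l).r) := by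
      rw [← Finset.sum_neg_distrib]
      exact Finset.sum_congr rfl (fun l _ => by ring)
    rw [h3]
    linarith

end Pool.Agent.MHP.H21
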