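import Pool.Agent.MHP.StmtsD

set_option autoImplicit false

open scoped Classical

namespace Pool.Agent.MHP.H21

open Pool.Agent.HMT Pool.Agent.MHP

/-- a connected rooted graph is isomorphic to its root component -/
theorem comp_iso (A : PG) (h : A.G.Connected) : PIso A.comp A := by
  have hall : ∀ v, A.G.Reachable A.r v := fun v => h.preconnected A.r v
  refine ⟨⟨⟨fun v => v.1, fun v => ⟨v, hall v⟩, fun v => rfl, fun v => rfl⟩, ?_⟩, rfl⟩
  intro a b
  exact Iff.rfl

theorem piso_symm {A B : PG} (h : PIso A B) : PIso B A := by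
  obtain ⟨e, he⟩ := h
  exact ⟨e.symm, by rw [← he]; simp⟩

theorem piso_trans {A B C : PG} (h : PIso A B) (h' : PIso B C) : PIso A C := by
  obtain ⟨e, he⟩ := h
  obtain ⟨f, hf⟩ := h'
  exact ⟨e.trans f, by rw [← hf, ← he]; rfl⟩

theorem piso_edges {A B : PG} (h : PIso A B) :
    Nat.card A.G.edgeSet = Nat.card B.G.edgeSet := by
  obtain ⟨e, _⟩ := h
  exact Nat.card_congr e.mapEdgeSet

theorem spr_zero {V : Type} [Finite V] (G : SimpleGraph V) : Spr 0 G := Or.inl rfl

theorem pai_aux (P : GProp) (A M : PG) (hA : A.G.Connected) (hM : M.G.Connected)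
    (hn : ¬ PIso M A) (hc : Nat.card M.G.edgeSet ≤ Nat.card A.G.edgeSet)
    (h : ∀ X : PG, P.mem (glue X.G X.r A.G A.r) ↔ P.mem (glue X.G X.r M.G M.r)) :
    RowDep P 0 := by
  refine ⟨A, Unit, inferInstance, fun _ => M, 1, fun _ => 1, hA, one_ne_zero, spr_zero _,
    fun _ => ⟨spr_zero _, fun h' => hn (piso_trans (piso_symm (comp_iso M hM)) h'), ?_⟩, ?_⟩
  · rw [piso_edges (comp_iso M hM)]
    exact hc
  · intro X _ _
    simp only [one_mul, Finset.univ_unique, Finset.sum_singleton]
    unfold mu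
    by_cases h1 : P.mem (glue X.G X.r A.G A.r)
    · rw [if_pos h1, if_pos ((h X).1 h1)]
    · rw [if_neg h1, if_neg (fun h2 => h1 ((h X).2 h2))]

theorem pai : PaiStmt := by
  intro P A M hA hM hn h
  rcases le_total (Nat.card M.G.edgeSet) (Nat.card A.G.edgeSet) with hc | hc
  · exact pai_aux P A M hA hM (fun h' => hn (piso_symm h')) hc h
  · exact pai_aux P M A hM hA hn hc (fun X => (h X).symm)

end Pool.Agent.MHP.H21
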