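import Pool.Agent.MHP.Rows
import Pool.Agent.MHP.Stmts
import Pool.Agent.MHP.StmtsT
import Pool.Agent.Helper21_MHP.PAI
import Pool.Agent.Helper45_MHP.CIS

set_option autoImplicit false

open scoped Classical

namespace Pool.Agent.MHP.H21

open Pool.Agent.HMT Pool.Agent.MHP

theorem noc_of (A M : PG) (hA : A.G.Connected) (h1 : ¬ PIso M.comp A)
    (h2 : Nat.card M.comp.G.edgeSet ≤ Nat.card A.G.edgeSet) : NoCopy A M := by
  intro φ hφ
  have hr : ∀ a, M.G.Reachable M.r (φ a) := by
    intro a
    have h := (hA.preconnected A.r a).map φ.toHom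
    have h' : M.G.Reachable (φ A.r) (φ a) := h
    rwa [hφ] at h'
  let ψ : A.V → M.comp.V := fun a => ⟨φ a, hr a⟩
  have hψi : Function.Injective ψ := by
    intro a b hab
    exact φ.injective (congrArg Subtype.val hab)
  have hψa : ∀ a b, A.G.Adj a b → M.comp.G.Adj (ψ a) (ψ b) := by
    intro a b hab
    exact φ.toHom.map_rel hab
  have hψr : ψ A.r = M.comp.r := Subtype.ext hφ
  -- edges
  let ε : A.G.edgeSet → M.comp.G.edgeSet := fun e => ⟨Sym2.map ψ e.1, by
    obtain ⟨e, he⟩ := e
    induction e using Sym2.ind with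
    | _ a b => exact hψa a b he⟩
  have hεi : Function.Injective ε := by
    intro e f hef
    apply Subtype.ext
    exact Sym2.map.injective hψi (congrArg Subtype.val hef)
  have hεs : Function.Surjective ε := by
    have hcard : Nat.card A.G.edgeSet = Nat.card M.comp.G.edgeSet :=
      le_antisymm (Nat.card_le_card_of_injective ε hεi) h2
    exact ((Nat.bijective_iff_injective_and_card ε).2 ⟨hεi, hcard⟩).2
  have hadj : ∀ a b, M.comp.G.Adj (ψ a) (ψ b) → A.G.Adj a b := by
    intro a b hab
    obtain ⟨⟨e, he⟩, hee⟩ := hεs ⟨s(ψ a, ψ b), hab⟩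
    have h3 : Sym2.map ψ e = Sym2.map ψ s(a, b) := by
      have := congrArg Subtype.val hee
      exact this
    have h4 := Sym2.map.injective hψi h3
    rw [h4] at he
    exact he
  have hconn : M.comp.G.Connected := Pool.Agent.MHP.H45.cis.2.2.2.2.2.1 M
  have hsurj : Function.Surjective ψ := by
    intro v
    by_cases hv : v = M.comp.r
    · exact ⟨A.r, by rw [hψr, hv]⟩
    · -- `v` has a neighbour
      have hnb : ∃ w, M.comp.G.Adj v w := by
        obtain ⟨p⟩ := hconn.preconnected v M.comp.r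
        cases p with
        | nil => exact absurd rfl hv
        | cons h _ => exact ⟨_, h⟩
      obtain ⟨w, hw⟩ := hnb
      obtain ⟨⟨e, he⟩, hee⟩ := hεs ⟨s(v, w), hw⟩
      induction e using Sym2.ind with
      | _ a b =>
        have h3 : s(ψ a, ψ b) = s(v, w) := congrArg Subtype.val hee
        rw [Sym2.eq_iff] at h3
        rcases h3 with ⟨h3, -⟩ | ⟨-, h3⟩
        · exact ⟨a, h3⟩
        · exact ⟨b, h3⟩
  apply h1
  apply piso_symm
  refine ⟨⟨Equiv.ofBijective ψ ⟨hψi, hsurj⟩, ?_⟩, hψr⟩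
  intro a b
  exact ⟨hadj a b, hψa a b⟩

theorem noc_comp (A M : PG) (h : NoCopy A M) (Z : SimpleGraph M.V) (hZ : Z ≤ M.G) :
    ¬ PIso (PG.mk M.V Z M.r).comp A := by
  rintro ⟨e, he⟩
  let φ : A.G →g M.G := ⟨fun a => (e.symm a).1, by
    intro a b hab
    have h1 : (PG.mk M.V Z M.r).comp.G.Adj (e.symm a) (e.symm b) := e.symm.map_rel_iff.2 hab
    exact hZ h1⟩
  have hφ : Function.Injective φ := by
    intro a b hab
    exact e.symm.injective (Subtype.ext hab)
  apply h ⟨φ, hφ⟩
  change (e.symm A.r).1 = M.r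
  have h1 : e.symm A.r = (PG.mk M.V Z M.r).comp.r := by
    rw [← he]
    simp
  rw [h1]
  rfl

theorem noc_plant (A M : PG) (h : NoCopy A M) : NoCopy (plant A) (plant M) := by
  intro φ hφ
  have hφ0 : φ (Sum.inl false) = (Sum.inl false : Bool ⊕ {v : M.V // v ≠ M.r}) := hφ
  -- the neighbour of the root
  have hnb : ∀ q : Bool ⊕ {v : M.V // v ≠ M.r}, (plant M).G.Adj (Sum.inl false) q →
      q = Sum.inl true := by
    intro q hq
    rcases q with (_ | _) | v
    · exact absurd hq ((plant M).G.irrefl)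
    · rfl
    · exact absurd hq.1 (by simp)
  have hA1 : (plant A).G.Adj (Sum.inl false) (Sum.inl true) := by
    change (⊤ : SimpleGraph Bool).Adj false true
    simp
  have hφ1 : φ (Sum.inl true) = (Sum.inl true : Bool ⊕ {v : M.V // v ≠ M.r}) := by
    apply hnb
    rw [← hφ0]
    exact φ.toHom.map_rel hA1
  have hne : ∀ a : A.V, emb A.r true a ≠ Sum.inl false := by
    intro a hcon
    have := (inl_eq_emb A.r true false a).1 hcon.symm
    simp at this
  have hex : ∀ a : A.V, ∃ m : M.V, φ (emb A.r true a) = emb M.r true m := by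
    intro a
    rcases inl_or_emb M.r true (φ (emb A.r true a)) with ⟨b, hb⟩ | ⟨m, _, hm⟩
    · cases b with
      | false =>
        exfalso
        apply hne a
        apply φ.injective
        change φ (emb A.r true a) = φ (Sum.inl false)
        rw [hb, hφ0]
      | true => exact ⟨M.r, by rw [hb, emb_root]⟩
    · exact ⟨m, hm⟩
  choose ψ hψ using hex
  let χ : A.G →g M.G := ⟨ψ, by
    intro a b hab
    have h1 : (plant A).G.Adj (emb A.r true a) (emb A.r true b) :=
      (glue_adj_emb (⊤ : SimpleGraph Bool) true A.G A.r a b).2 hab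
    have h2 : (plant M).G.Adj (φ (emb A.r true a)) (φ (emb A.r true b)) := φ.toHom.map_rel h1
    rw [hψ, hψ] at h2
    exact (glue_adj_emb (⊤ : SimpleGraph Bool) true M.G M.r _ _).1 h2⟩
  have hχ : Function.Injective χ := by
    intro a b hab
    have h1 : φ (emb A.r true a) = φ (emb A.r true b) := by
      rw [hψ, hψ]
      exact congrArg _ hab
    exact emb_injective A.r true (φ.injective h1)
  apply h ⟨χ, hχ⟩
  change ψ A.r = M.r
  have h1 := hψ A.r
  rw [emb_root, hφ1] at h1
  exact ((inl_eq_emb M.r true true (ψ A.r)).1 h1).2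

theorem depRows_of_rowDep (P : GProp) (g : ℕ) (h : RowDep P g) : DepRows P g 0 := by
  obtain ⟨A, L, hL, M, a, b, hA, ha, hs, hM, hr⟩ := h
  refine ⟨A, L, hL, M, hA, hs, fun l => ⟨(hM l).1, ?_⟩, fun n _ => ⟨a, b, ha, ?_⟩⟩
  · exact noc_of A (M l) hA (hM l).2.1 (hM l).2.2
  · intro X hX _ hX'
    exact hr X hX hX'

end Pool.Agent.MHP.H21
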