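import Pool.Agent.MHP.StmtsT

set_option autoImplicit false

open scoped Classical

namespace Pool.Agent.MHP.H21

open Pool.Agent.HMT Pool.Agent.MHP

theorem finite_setoid (V : Type) [Finite V] : Finite (Setoid V) := by
  refine Finite.of_injective (fun π : Setoid V => (π.r : V → V → Prop)) ?_
  intro a b h
  apply Setoid.ext
  intro x y
  exact iff_of_eq (congrFun (congrFun h x) y)

theorem tog : TgaStmt → TogStmt := by
  intro tga P A B hA hB h X i
  have := finite_setoid X.V
  let s : Finset (Setoid X.V) := (Set.toFinite {π : Setoid X.V | Nat.card (Quotient π) = i ∧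
    ∀ v, ¬ π.r v X.r → P.mem (X.G.induce {w | π.r w v})}).toFinset
  have hs : ∀ π : Setoid X.V, π ∈ s ↔ (Nat.card (Quotient π) = i ∧
      ∀ v, ¬ π.r v X.r → P.mem (X.G.induce {w | π.r w v})) := by
    intro π
    exact Set.Finite.mem_toFinset _
  rw [tga P A.V X.V X.G X.r A.G A.r i s hA hs, tga P B.V X.V X.G X.r B.G B.r i s hB hs]
  refine Finset.sum_congr rfl ?_
  intro π _
  exact h ⟨{w | π.r w X.r}, X.G.induce {w | π.r w X.r}, ⟨X.r, π.refl' X.r⟩⟩

end Pool.Agent.MHP.H21
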